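import Mathlib

set_option autoImplicit false

namespace Pool.Agent.Results.MP_e85eb4_nt.Four

open Polynomial UniqueFactorizationMonoid

/-- the n-th iterate of the rational function f under composition -/
noncomputable def iter (f : RatFunc ℚ) (n : ℕ) : RatFunc ℚ :=
  (fun g => aeval g f.num / aeval g f.denom)^[n] RatFunc.X

/-- numerator of g - a, formed from the coprime numerator and denominator of g -/
noncomputable def numer (g : RatFunc ℚ) (a : ℚ) : ℚ[X] := g.num - C a * g.denom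

theorem nd (A B : ℚ[X]) (h : IsCoprime A B) (hA : A ≠ 0) (hB : B ≠ 0) :
    ∃ c : ℚ, c ≠ 0 ∧
      (algebraMap ℚ[X] (RatFunc ℚ) A / algebraMap ℚ[X] (RatFunc ℚ) B).num = C c * A ∧
      (algebraMap ℚ[X] (RatFunc ℚ) A / algebraMap ℚ[X] (RatFunc ℚ) B).denom = C c * B := by
  set r := algebraMap ℚ[X] (RatFunc ℚ) A / algebraMap ℚ[X] (RatFunc ℚ) B with hr
  have h1 : r.num * B = A * r.denom := (RatFunc.num_mul_eq_mul_denom_iff hB).2 hr
  have h2 : A ∣ r.num := h.dvd_of_dvd_mul_right ⟨_, h1⟩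
  have h3 : r.num ∣ A := (RatFunc.isCoprime_num_denom r).dvd_of_dvd_mul_right ⟨_, h1.symm⟩
  obtain ⟨u, hu⟩ := associated_of_dvd_dvd h2 h3
  obtain ⟨c, hc, hcu⟩ := Polynomial.isUnit_iff.1 u.isUnit
  refine ⟨c, hc.ne_zero, by rw [← hu, hcu, mul_comm], ?_⟩
  apply mul_left_cancel₀ hA
  rw [← h1, ← hu, hcu]; ring

theorem cop (F G : ℚ[X]) (h : IsCoprime F G) :
    IsCoprime (59 * F ^ 2 + G ^ 2) (307 * F ^ 2 - 7 * G ^ 2) := by
  obtain ⟨a, b, hab⟩ := (h.pow (m := 2) (n := 2))
  refine ⟨C (1 / 720) * (7 * a + 307 * b), C (1 / 720) * (a - 59 * b), ?_⟩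
  have h720 : (C (1 / 720 : ℚ) : ℚ[X]) * 720 = 1 := by
    rw [← map_ofNat C 720, ← C_mul]; norm_num
  linear_combination (C (1 / 720 : ℚ) * 720) * hab + h720

theorem den_ne (x : ℚ) : 307 * x ^ 2 - 7 ≠ 0 := by
  intro h
  have h1 : IsSquare (2149 : ℚ) := ⟨307 * x, by linear_combination (-307) * h⟩
  have h2 : IsSquare (2149 : ℕ) := by exact_mod_cast h1
  revert h2; decide +kernel

def step (x : ℚ) : ℚ := (59 * x ^ 2 + 1) / (307 * x ^ 2 - 7)

def ht (x : ℚ) : ℕ := max x.num.natAbs x.den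

theorem grow (x : ℚ) (hx : 720 < ht x) : ht x < ht (step x) := by
  have hb : (x.den : ℚ) ≠ 0 := by exact_mod_cast x.den_nz
  have hxe : x = x.num / x.den := (Rat.num_div_den x).symm
  set y := step x with hy
  have hye : y = y.num / y.den := (Rat.num_div_den y).symm
  have hyb : (y.den : ℚ) ≠ 0 := by exact_mod_cast y.den_nz
  have h1 : y * (307 * x ^ 2 - 7) = 59 * x ^ 2 + 1 := by
    rw [hy, step, div_mul_cancel₀ _ (den_ne x)]
  have h2 : y.num * (307 * x.num ^ 2 - 7 * (x.den : ℤ) ^ 2)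
      = (59 * x.num ^ 2 + (x.den : ℤ) ^ 2) * y.den := by
    rw [hye, hxe] at h1
    field_simp at h1
    have h3 : ((y.num * (307 * x.num ^ 2 - 7 * (x.den : ℤ) ^ 2) : ℤ) : ℚ)
        = (((59 * x.num ^ 2 + (x.den : ℤ) ^ 2) * y.den : ℤ) : ℚ) := by
      push_cast; linear_combination h1
    exact_mod_cast h3
  have hco : IsCoprime x.num (x.den : ℤ) := by
    rw [Int.isCoprime_iff_gcd_eq_one]; exact x.reduced
  obtain ⟨a, b, hab⟩ := hco.pow (m := 2) (n := 2)
  set N : ℤ := 59 * x.num ^ 2 + (x.den : ℤ) ^ 2 with hN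
  set M : ℤ := 307 * x.num ^ 2 - 7 * (x.den : ℤ) ^ 2 with hM
  have h4 : (7 * a + 307 * b) * N + (a - 59 * b) * M = 720 := by
    rw [hN, hM]; linear_combination 720 * hab
  have h5 : N ∣ 720 * y.num := by
    refine ⟨(7 * a + 307 * b) * y.num + (a - 59 * b) * y.den, ?_⟩
    linear_combination (-y.num) * h4 + (a - 59 * b) * h2
  have hd0 : (0 : ℤ) < x.den := by exact_mod_cast x.den_pos
  have hN0 : 0 < N := by positivity
  have hyn : y.num ≠ 0 := by
    intro h0
    rw [h0, zero_mul] at h2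
    have : (0 : ℤ) < N * y.den := mul_pos hN0 (by exact_mod_cast y.den_pos)
    omega
  have h6 : N ≤ |720 * y.num| := Int.le_of_dvd (abs_pos.2 (by omega)) ((dvd_abs _ _).2 h5)
  have h7 : ((ht x : ℕ) : ℤ) ^ 2 ≤ N := by
    unfold ht
    rcases le_total x.num.natAbs x.den with h | h
    · rw [max_eq_right h, hN]; nlinarith [sq_nonneg x.num]
    · rw [max_eq_left h, hN, Int.natCast_natAbs, sq_abs]; nlinarith [sq_nonneg x.num]
  have h8 : |y.num| ≤ ((ht y : ℕ) : ℤ) := by
    unfold ht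
    rw [← Int.natCast_natAbs]; exact_mod_cast le_max_left _ _
  rw [abs_mul] at h6
  have h9 : (720 : ℤ) < ht x := by exact_mod_cast hx
  have h10 : ((ht x : ℕ) : ℤ) < ht y := by
    have : |(720 : ℤ)| = 720 := by norm_num
    rw [this] at h6
    nlinarith
  exact_mod_cast h10

theorem wander : (Set.range fun m : ℕ => step^[m] (1 / 8)).Infinite := by
  have h0 : step^[2] (1 / 8) = 8449 / 41717 := by
    norm_num [step, Function.iterate_succ_apply']
  have h1 : ∀ m : ℕ, 720 < ht (step^[m + 2] (1 / 8)) := by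
    intro m
    induction m with
    | zero => rw [zero_add, h0]; norm_num [ht]
    | succ m ih =>
      have : m + 1 + 2 = (m + 2) + 1 := by ring
      rw [this, Function.iterate_succ_apply']
      exact ih.trans (grow _ ih)
  have h2 : StrictMono fun m : ℕ => ht (step^[m + 2] (1 / 8)) := by
    apply strictMono_nat_of_lt_succ
    intro m
    have : step^[m + 1 + 2] (1 / 8) = step (step^[m + 2] (1 / 8)) :=
      Function.iterate_succ_apply' step (m + 2) (1 / 8)
    show ht (step^[m + 2] (1 / 8)) < ht (step^[m + 1 + 2] (1 / 8))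
    rw [this]
    exact grow _ (h1 m)
  apply Set.infinite_of_injective_forall_mem (f := fun m : ℕ => step^[m + 2] (1 / 8))
  · intro a b hab
    exact h2.injective (congrArg ht hab)
  · intro m; exact ⟨m + 2, rfl⟩

theorem cnt (g : ℚ[X]) (hg : g.natDegree = 2) : 1 ≤ Multiset.card (normalizedFactors g) := by
  classical
  have hne : g ≠ 0 := by rintro rfl; simp at hg
  rw [Nat.one_le_iff_ne_zero, Ne, Multiset.card_eq_zero]
  intro h0
  have h1 := prod_normalizedFactors hne
  rw [h0, Multiset.prod_zero] at h1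
  have h2 := natDegree_eq_zero_of_isUnit (associated_one_iff_isUnit.1 h1.symm)
  omega

theorem result :
    ∃ (f : RatFunc ℚ) (α : ℚ) (n : ℕ), max f.num.natDegree f.denom.natDegree = 2 ∧
      (∀ x : ℚ, eval x f.denom ≠ 0) ∧
      (Set.range fun m : ℕ => (fun x => eval x f.num / eval x f.denom)^[m] α).Infinite ∧
      (numer f α).natDegree = 2 ∧ (∀ x : ℚ, eval x (numer f α) ≠ 0) ∧ 1 ≤ n ∧
      3 < Multiset.card (factors (numer (iter f n) α)) := by
  classical
  let A : ℕ → ℚ[X] × ℚ[X] := fun n =>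
    (fun p : ℚ[X] × ℚ[X] => (59 * p.1 ^ 2 + p.2 ^ 2, 307 * p.1 ^ 2 - 7 * p.2 ^ 2))^[n] (X, 1)
  have hA : ∀ n, A (n + 1) =
      (59 * (A n).1 ^ 2 + (A n).2 ^ 2, 307 * (A n).1 ^ 2 - 7 * (A n).2 ^ 2) := fun n =>
    Function.iterate_succ_apply' _ _ _
  have hA0 : A 0 = (X, 1) := rfl
  have hco : ∀ n, IsCoprime (A n).1 (A n).2 := by
    intro n
    induction n with
    | zero => exact isCoprime_one_right
    | succ n ih => rw [hA]; exact cop _ _ ih
  have hB : ∀ n, (A n).2 ≠ 0 := by
    intro n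
    induction n with
    | zero => exact one_ne_zero
    | succ n ih =>
      rw [hA]
      intro h
      obtain ⟨x, hx⟩ : ∃ x : ℚ, eval x (A n).2 ≠ 0 := by
        by_contra h'
        push Not at h'
        exact ih (Polynomial.funext (by simpa using h'))
      have h1 := congrArg (eval x) h
      simp only [eval_sub, eval_mul, eval_pow, eval_ofNat, eval_zero] at h1
      apply den_ne (eval x (A n).1 / eval x (A n).2)
      field_simp
      linear_combination h1
  have hF : ∀ n, (A (n + 1)).1 ≠ 0 := by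
    intro n
    rw [hA]
    intro h
    obtain ⟨x, hx⟩ : ∃ x : ℚ, eval x (A n).2 ≠ 0 := by
      by_contra h'
      push Not at h'
      exact hB n (Polynomial.funext (by simpa using h'))
    have h1 := congrArg (eval x) h
    simp only [eval_add, eval_mul, eval_pow, eval_ofNat, eval_zero] at h1
    have : 0 < eval x (A n).2 ^ 2 := by positivity
    nlinarith [sq_nonneg (eval x (A n).1)]
  set ι := algebraMap ℚ[X] (RatFunc ℚ) with hι
  have hιi : Function.Injective ι := IsFractionRing.injective _ _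
  set f : RatFunc ℚ := ι (A 1).1 / ι (A 1).2 with hf
  obtain ⟨c, hc, hn, hd⟩ := nd _ _ (hco 1) (hF 0) (hB 1)
  have hn' : f.num = C c * (59 * X ^ 2 + 1) := by rw [hf, hn, hA, hA0]; simp
  have hd' : f.denom = C c * (307 * X ^ 2 - 7) := by rw [hf, hd, hA, hA0]; simp
  have hit : ∀ n, iter f n = ι (A n).1 / ι (A n).2 := by
    intro n
    induction n with
    | zero => simp [iter, hA0, hι]
    | succ n ih =>
      have h1 : iter f (n + 1) = aeval (iter f n) f.num / aeval (iter f n) f.denom :=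
        Function.iterate_succ_apply' _ _ _
      have h2 : ι (A n).2 ≠ 0 := fun h => hB n (hιi (by rw [h, map_zero]))
      have h3 : ι (A (n + 1)).2 ≠ 0 := fun h => hB (n + 1) (hιi (by rw [h, map_zero]))
      have h4 : (aeval (iter f n) (C c) : RatFunc ℚ) ≠ 0 := by
        rw [aeval_C]; exact (_root_.map_ne_zero _).2 hc
      rw [h1, hn', hd', map_mul, map_mul, mul_div_mul_left _ _ h4, ih]
      rw [hA] at h3 ⊢
      simp only [map_add, map_sub, map_mul, map_pow, aeval_X, map_one, map_ofNat] at h3 ⊢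
      have h5 : (307 : RatFunc ℚ) * (ι (A n).1 / ι (A n).2) ^ 2 - 7
          = (307 * ι (A n).1 ^ 2 - 7 * ι (A n).2 ^ 2) / ι (A n).2 ^ 2 := by field_simp
      rw [h5]; field_simp
  have h8 : (C (1 / 8 : ℚ) : ℚ[X]) * 8 = 1 := by
    rw [← map_ofNat C 8, ← C_mul]; norm_num
  have hnum : numer f (1 / 8) = C (c / 8) * (165 * X ^ 2 + 15) := by
    rw [numer, hn', hd', div_eq_mul_one_div c, C_mul]
    linear_combination (-(C c * (59 * X ^ 2 + 1))) * h8
  refine ⟨f, 1 / 8, 3, ?_, ?_, ?_, ?_, ?_, by norm_num, ?_⟩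
  · rw [hn', hd', natDegree_C_mul hc, natDegree_C_mul hc]
    have h1 : (59 * X ^ 2 + 1 : ℚ[X]).natDegree = 2 := by compute_degree!
    have h2 : (307 * X ^ 2 - 7 : ℚ[X]).natDegree = 2 := by compute_degree!
    rw [h1, h2, max_self]
  · intro x
    rw [hd']
    simpa [hc] using den_ne x
  · have : (fun x => eval x f.num / eval x f.denom) = step := by
      funext x
      rw [hn', hd', step]
      simp [mul_div_mul_left _ _ hc]
    rw [this]; exact wander
  · rw [hnum, natDegree_C_mul (by positivity)]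
    compute_degree!
  · intro x
    rw [hnum]
    simp only [eval_mul, eval_C, eval_add, eval_pow, eval_X, eval_ofNat]
    positivity
  · obtain ⟨e, he, hn3, hd3⟩ := nd _ _ (hco 3) (hF 2) (hB 3)
    have h1 : numer (iter f 3) (1 / 8) = C (e / 8) * 1944000 *
        ((15 * X ^ 2 - 4 * X + 1) * (15 * X ^ 2 + 4 * X + 1) *
          ((199 * X ^ 2 - 20 * X + 1) * (199 * X ^ 2 + 20 * X + 1))) := by
      rw [numer, hit, hn3, hd3, div_eq_mul_one_div e, C_mul, hA, hA, hA, hA0]
      linear_combination (-(C e * (59 * (59 * (59 * X ^ 2 + 1) ^ 2 + (307 * X ^ 2 - 7) ^ 2) ^ 2 +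
        (307 * (59 * X ^ 2 + 1) ^ 2 - 7 * (307 * X ^ 2 - 7) ^ 2) ^ 2))) * h8
    have d1 : (15 * X ^ 2 - 4 * X + 1 : ℚ[X]).natDegree = 2 := by compute_degree!
    have d2 : (15 * X ^ 2 + 4 * X + 1 : ℚ[X]).natDegree = 2 := by compute_degree!
    have d3 : (199 * X ^ 2 - 20 * X + 1 : ℚ[X]).natDegree = 2 := by compute_degree!
    have d4 : (199 * X ^ 2 + 20 * X + 1 : ℚ[X]).natDegree = 2 := by compute_degree!
    have ne : ∀ g : ℚ[X], g.natDegree = 2 → g ≠ 0 := by rintro g hg rfl; simp at hg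
    have h0 : (C (e / 8) * 1944000 : ℚ[X]) ≠ 0 :=
      mul_ne_zero (C_ne_zero.2 (by positivity)) (by norm_num)
    have hcard : ∀ g : ℚ[X], Multiset.card (factors g) = Multiset.card (normalizedFactors g) := by
      intro g; rw [normalizedFactors, Multiset.card_map]
    rw [hcard, h1, normalizedFactors_mul h0 (mul_ne_zero (mul_ne_zero (ne _ d1) (ne _ d2))
      (mul_ne_zero (ne _ d3) (ne _ d4))), normalizedFactors_mul (mul_ne_zero (ne _ d1) (ne _ d2))
      (mul_ne_zero (ne _ d3) (ne _ d4)), normalizedFactors_mul (ne _ d1) (ne _ d2),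
      normalizedFactors_mul (ne _ d3) (ne _ d4)]
    simp only [Multiset.card_add]
    have := cnt _ d1
    have := cnt _ d2
    have := cnt _ d3
    have := cnt _ d4
    omega

end Pool.Agent.Results.MP_e85eb4_nt.Four
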