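import Mathlib

set_option autoImplicit false

namespace Pool.Agent.Results.MP_e85eb4_nt.Unbounded

open Polynomial UniqueFactorizationMonoid

theorem exists_c (K : Type) [Field K] [NumberField K] (q : ℕ) (hq : q.Prime) :
    ∃ c : K, (∃ j : ℕ, c ^ (q ^ j) = 2) ∧ ∀ z : K, z ^ q ≠ c := by
  by_contra h
  push Not at h
  have h1 : ∀ j : ℕ, ∃ y : K, y ^ (q ^ j) = 2 := by
    intro j
    induction j with
    | zero => exact ⟨2, by simp⟩
    | succ j ih =>
      obtain ⟨y, hy⟩ := ih
      obtain ⟨z, hz⟩ := h y ⟨j, hy⟩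
      exact ⟨z, by rw [pow_succ', pow_mul, hz, hy]⟩
  set N := Module.finrank ℚ K with hN
  have hN0 : 0 < N := Module.finrank_pos
  obtain ⟨y, hy⟩ := h1 N
  have h2 : (Algebra.norm ℚ y) ^ (q ^ N) = (2 : ℚ) ^ N := by
    rw [← map_pow, hy]
    have : (2 : K) = algebraMap ℚ K 2 := by simp
    rw [this, Algebra.norm_algebraMap]
  have h3 : Algebra.norm ℚ y ≠ 0 := by
    intro h0
    rw [h0, zero_pow (pow_ne_zero _ hq.ne_zero)] at h2
    exact absurd h2.symm (by positivity)
  have : Fact (Nat.Prime 2) := ⟨Nat.prime_two⟩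
  have h4 := congrArg (padicValRat 2) h2
  rw [padicValRat.pow, padicValRat.pow] at h4
  have h5 : padicValRat 2 (2 : ℚ) = 1 := by
    have := padicValRat.self (p := 2) (by norm_num)
    simpa using this
  rw [h5, mul_one] at h4
  have h6 : ((q ^ N : ℕ) : ℤ) ∣ (N : ℤ) := ⟨_, h4.symm⟩
  have h7 : q ^ N ≤ N := Nat.le_of_dvd hN0 (Int.natCast_dvd_natCast.1 h6)
  exact absurd (Nat.lt_pow_self hq.one_lt) (not_lt.2 h7)

theorem count {K : Type} [Field K] (p m : ℕ) (hp : 2 ≤ p) (hm : 0 < m) (c : K) (k : ℕ) :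
    k < Multiset.card (factors (X ^ (m * p ^ k) - C (c ^ p ^ k) : K[X])) := by
  classical
  have hne : ∀ k : ℕ, (X ^ (m * p ^ k) - C (c ^ p ^ k) : K[X]) ≠ 0 := fun k =>
    X_pow_sub_C_ne_zero (by positivity) _
  have hcard : ∀ g : K[X], Multiset.card (factors g) = Multiset.card (normalizedFactors g) := by
    intro g; rw [normalizedFactors, Multiset.card_map]
  rw [hcard]
  induction k with
  | zero =>
    rw [Multiset.card_pos]
    intro h0
    have h1 := prod_normalizedFactors (hne 0)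
    rw [h0, Multiset.prod_zero] at h1
    have h2 := natDegree_eq_zero_of_isUnit (associated_one_iff_isUnit.1 h1.symm)
    rw [natDegree_X_pow_sub_C] at h2
    simp at h2; omega
  | succ k ih =>
    have hd : (X ^ (m * p ^ k) - C (c ^ p ^ k) : K[X]) ∣
        X ^ (m * p ^ (k + 1)) - C (c ^ p ^ (k + 1)) := by
      rw [pow_succ, ← mul_assoc, pow_mul X (m * p ^ k) p, pow_mul c, C_pow (a := c ^ p ^ k)]
      exact sub_dvd_pow_sub_pow _ _ _
    have hdn : DvdNotUnit (X ^ (m * p ^ k) - C (c ^ p ^ k) : K[X])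
        (X ^ (m * p ^ (k + 1)) - C (c ^ p ^ (k + 1))) := by
      refine dvdNotUnit_of_dvd_of_not_dvd hd ?_
      intro h
      have h1 := natDegree_le_of_dvd h (hne k)
      rw [natDegree_X_pow_sub_C, natDegree_X_pow_sub_C, pow_succ] at h1
      have : 0 < m * p ^ k := by positivity
      nlinarith
    have h2 := (dvdNotUnit_iff_normalizedFactors_lt_normalizedFactors (hne k) (hne (k + 1))).1 hdn
    have h3 := Multiset.card_lt_card h2
    omega

theorem result (K : Type) [Field K] [NumberField K] (d : ℕ) (hd : 2 ≤ d) (hpp : ¬ IsPrimePow d)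
    (κ : ℕ) :
    ∃ (f : K[X]) (α : K) (n : ℕ), f.natDegree = d ∧
      (Set.range fun m : ℕ => (fun x => eval x f)^[m] α).Infinite ∧
      (∀ x : K, eval x f ≠ α) ∧ 1 ≤ n ∧
      κ < Multiset.card (factors ((f.comp)^[n] X - C α)) := by
  have hp : d.minFac.Prime := Nat.minFac_prime (by omega)
  set p := d.minFac with hpdef
  obtain ⟨q, hq, hqd, hqp⟩ : ∃ q : ℕ, q.Prime ∧ q ∣ d ∧ q ≠ p := by
    by_contra h
    push Not at h
    apply hpp
    rw [isPrimePow_iff_unique_prime_dvd]
    exact ⟨p, ⟨hp, Nat.minFac_dvd d⟩, fun q hq => h q hq.1 hq.2⟩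
  obtain ⟨c, ⟨j, hj⟩, hc⟩ := exists_c K q hq
  have hc0 : c ≠ 0 := by
    intro h; rw [h, zero_pow (pow_ne_zero _ hq.ne_zero)] at hj
    exact two_ne_zero hj.symm
  have hinj : Function.Injective fun e : ℕ => c ^ e := by
    intro a b hab
    have h1 : (2 : K) ^ a = 2 ^ b := by
      rw [← hj, ← pow_mul, ← pow_mul, mul_comm _ a, mul_comm _ b, pow_mul, pow_mul]
      exact congrArg (· ^ q ^ j) hab
    have h2 : (2 : ℕ) ^ a = 2 ^ b := by exact_mod_cast h1
    exact Nat.pow_right_injective le_rfl h2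
  have hit : ∀ n : ℕ, ((X ^ d : K[X]).comp)^[n] X = X ^ (d ^ n) := by
    intro n
    induction n with
    | zero => simp
    | succ n ih => rw [Function.iterate_succ_apply', ih, pow_comp, X_comp, ← pow_mul, pow_succ]
  refine ⟨X ^ d, c ^ p ^ (κ + 1), κ + 1, natDegree_X_pow d, ?_, ?_, by omega, ?_⟩
  · apply Set.infinite_range_of_injective
    have h1 : ∀ m : ℕ, (fun x => eval x (X ^ d : K[X]))^[m] (c ^ p ^ (κ + 1))
        = c ^ (p ^ (κ + 1) * d ^ m) := by
      intro m
      induction m with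
      | zero => simp
      | succ m ih =>
        rw [Function.iterate_succ_apply', ih, eval_pow, eval_X, ← pow_mul, pow_succ d, mul_assoc]
    intro a b hab
    simp only [h1] at hab
    have h2 := hinj hab
    exact Nat.pow_right_injective hd (Nat.eq_of_mul_eq_mul_left (pow_pos hp.pos _) h2)
  · intro x hx
    rw [eval_pow, eval_X] at hx
    obtain ⟨e, he⟩ := hqd
    have hco : Nat.Coprime (p ^ (κ + 1)) q :=
      Nat.Coprime.pow_left _ ((Nat.coprime_primes hp hq).2 hqp.symm)
    obtain ⟨u, hu⟩ := Nat.exists_mul_mod_eq_one_of_coprime hco hq.one_lt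
    have hu' : p ^ (κ + 1) * u = q * (p ^ (κ + 1) * u / q) + 1 := by
      have := Nat.div_add_mod (p ^ (κ + 1) * u) q
      rw [hu.2] at this; exact this.symm
    set v := p ^ (κ + 1) * u / q
    apply hc ((x ^ e) ^ u / c ^ v)
    have h3 : ((x ^ e) ^ u) ^ q = (c ^ v) ^ q * c := by
      calc ((x ^ e) ^ u) ^ q = (x ^ d) ^ u := by rw [he]; ring
        _ = c ^ (p ^ (κ + 1) * u) := by rw [hx, ← pow_mul]
        _ = (c ^ v) ^ q * c := by rw [hu']; ring
    rw [div_pow, h3]
    field_simp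
  · rw [hit]
    obtain ⟨e, he⟩ : p ∣ d := Nat.minFac_dvd d
    have he0 : 0 < e := by
      rcases Nat.eq_zero_or_pos e with h | h
      · rw [h] at he; omega
      · exact h
    have h1 : d ^ (κ + 1) = e ^ (κ + 1) * p ^ (κ + 1) := by rw [← mul_pow, mul_comm e, ← he]
    rw [h1]
    have := count p (e ^ (κ + 1)) hp.two_le (by positivity) c (κ + 1)
    omega

end Pool.Agent.Results.MP_e85eb4_nt.Unbounded
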